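import Pool.Agent.D0H13.CA.Main

/-!
# The chain of faces determined by a point of a simplicial complex (helper26)
-/

set_option autoImplicit false

open Set Filter Topology

namespace Pool.Agent.D0H26.SS

open Pool.Agent.D0H13.CA (Rl)

section
variable {A : Type}

/-- the faces on which the coordinates are larger than elsewhere -/
def Lev (w : A → ℝ) (s : Finset A) : Prop :=
  s.Nonempty ∧ ∀ a ∈ s, 0 < w a ∧ ∀ b, b ∉ s → w b < w a

theorem lev_chain {w : A → ℝ} {s s' : Finset A} (h : Lev w s) (h' : Lev w s') :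
    s ⊆ s' ∨ s' ⊆ s := by
  by_contra hcon
  push Not at hcon
  obtain ⟨h1, h2⟩ := hcon
  obtain ⟨a, ha, ha'⟩ := Finset.not_subset.1 h1
  obtain ⟨b, hb, hb'⟩ := Finset.not_subset.1 h2
  exact lt_asymm ((h.2 a ha).2 b hb') ((h'.2 b hb).2 a ha')

theorem lev_sub {𝒦 : Set (Finset A)} {w : A → ℝ} (hw : w ∈ Rl 𝒦) :
    ∃ t ∈ 𝒦, (∀ a, a ∉ t → w a = 0) ∧ ∑ a ∈ t, w a = 1 ∧ ∀ s, Lev w s → s ⊆ t := by
  obtain ⟨_, t, ht, h1, h2⟩ := hw
  refine ⟨t, ht, h1, h2, fun s hs a ha => ?_⟩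
  by_contra hat
  have h3 := (hs.2 a ha).1
  rw [h1 a hat] at h3
  exact lt_irrefl _ h3

theorem lev_exists {𝒦 : Set (Finset A)} {w : A → ℝ} (hw : w ∈ Rl 𝒦) : ∃ s, Lev w s := by
  classical
  obtain ⟨h0, t, ht, h1, h2⟩ := hw
  have htne : t.Nonempty := by
    by_contra h
    rw [Finset.not_nonempty_iff_eq_empty] at h
    rw [h, Finset.sum_empty] at h2
    exact zero_ne_one h2
  obtain ⟨a, ha, hmax⟩ := t.exists_max_image w htne
  have hpos : 0 < w a := by
    by_contra h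
    have h3 : ∀ b ∈ t, w b = 0 := fun b hb =>
      le_antisymm ((hmax b hb).trans (not_lt.1 h)) (h0 b)
    rw [Finset.sum_eq_zero h3] at h2
    exact zero_ne_one h2
  refine ⟨t.filter (fun b => w b = w a), ⟨a, Finset.mem_filter.2 ⟨ha, rfl⟩⟩, ?_⟩
  intro b hb
  obtain ⟨_, hb2⟩ := Finset.mem_filter.1 hb
  rw [hb2]
  refine ⟨hpos, fun c hc => ?_⟩
  by_cases hct : c ∈ t
  · refine lt_of_le_of_ne (hmax c hct) fun h => hc (Finset.mem_filter.2 ⟨hct, h⟩)
  · rw [h1 c hct]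
    exact hpos

theorem lev_fin {𝒦 : Set (Finset A)} {w : A → ℝ} (hw : w ∈ Rl 𝒦) : {s | Lev w s}.Finite := by
  classical
  obtain ⟨t, _, _, _, h⟩ := lev_sub hw
  exact (t.powerset.finite_toSet).subset fun s hs => Finset.mem_coe.2 (Finset.mem_powerset.2 (h s hs))

theorem rl_le {𝒦 : Set (Finset A)} {w : A → ℝ} (hw : w ∈ Rl 𝒦) (t : Finset A) {b : A}
    (hb : b ∉ t) : w b ≤ 1 - ∑ a ∈ t, w a := by
  classical
  obtain ⟨h0, t', _, h1, h2⟩ := hw
  have h3 : ∑ a ∈ insert b t, w a ≤ ∑ a ∈ insert b t ∪ t', w a :=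
    Finset.sum_le_sum_of_subset_of_nonneg Finset.subset_union_left fun a _ _ => h0 a
  have h4 : ∑ a ∈ t', w a = ∑ a ∈ insert b t ∪ t', w a :=
    Finset.sum_subset Finset.subset_union_right fun a _ ha => h1 a ha
  rw [Finset.sum_insert hb, ← h4, h2] at h3
  linarith

theorem lev_open {𝒦 : Set (Finset A)} {w : A → ℝ} (hw : w ∈ Rl 𝒦) {s : Finset A}
    (hs : Lev w s) : ∀ᶠ w' in 𝓝[Rl 𝒦] w, Lev w' s := by
  classical
  obtain ⟨t, _, h1, h2, h3⟩ := lev_sub hw
  have hpos : ∀ a ∈ s, ∀ᶠ w' : A → ℝ in 𝓝 w, 0 < w' a := fun a ha =>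
    ((continuous_apply a).continuousAt).eventually (lt_mem_nhds (hs.2 a ha).1)
  have hin : ∀ a ∈ s, ∀ b ∈ t \ s, ∀ᶠ w' : A → ℝ in 𝓝 w, w' b < w' a := by
    intro a ha b hb
    have h4 : Continuous fun w' : A → ℝ => w' a - w' b :=
      (continuous_apply a).sub (continuous_apply b)
    have h5 : 0 < w a - w b := sub_pos.2 ((hs.2 a ha).2 b (Finset.mem_sdiff.1 hb).2)
    filter_upwards [h4.continuousAt.eventually (lt_mem_nhds h5)] with w' hw'
    exact sub_pos.1 hw'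
  have hout : ∀ a ∈ s, ∀ᶠ w' : A → ℝ in 𝓝 w, 1 - ∑ c ∈ t, w' c < w' a := by
    intro a ha
    have h4 : Continuous fun w' : A → ℝ => w' a - (1 - ∑ c ∈ t, w' c) :=
      (continuous_apply a).sub (continuous_const.sub
        (continuous_finsetSum _ fun c _ => continuous_apply c))
    have h5 : 0 < w a - (1 - ∑ c ∈ t, w c) := by
      rw [h2, sub_self, sub_zero]
      exact (hs.2 a ha).1
    filter_upwards [h4.continuousAt.eventually (lt_mem_nhds h5)] with w' hw'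
    exact sub_pos.1 hw'
  have hall := ((Filter.eventually_all_finset s).2 hpos).and
    (((Filter.eventually_all_finset s).2 fun a ha =>
      (Filter.eventually_all_finset (t \ s)).2 (hin a ha)).and
      ((Filter.eventually_all_finset s).2 hout))
  filter_upwards [mem_nhdsWithin_of_mem_nhds hall, self_mem_nhdsWithin] with w' hw' hR
  obtain ⟨g1, g2, g3⟩ := hw'
  refine ⟨hs.1, fun a ha => ⟨g1 a ha, fun b hb => ?_⟩⟩
  by_cases hbt : b ∈ t
  · exact g2 a ha b (Finset.mem_sdiff.2 ⟨hbt, hb⟩)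
  · exact lt_of_le_of_lt (rl_le hR t hbt) (g3 a ha)

/-- the action on finite sets -/
@[reducible] def actS (G : Type) [Group G] (A : Type) [MulAction G A] : MulAction G (Finset A) where
  smul γ s := s.map (MulAction.toPerm γ).toEmbedding
  one_smul s := by
    show s.map (MulAction.toPerm (1 : G)).toEmbedding = s
    ext a
    simp
  mul_smul γ δ s := by
    show s.map (MulAction.toPerm (γ * δ)).toEmbedding =
      (s.map (MulAction.toPerm δ).toEmbedding).map (MulAction.toPerm γ).toEmbedding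
    rw [Finset.map_map]
    congr 1
    ext a
    simp [mul_smul]

theorem mem_map_perm {G : Type} [Group G] [MulAction G A] {γ : G} {s : Finset A} {a : A} :
    a ∈ s.map (MulAction.toPerm γ).toEmbedding ↔ γ⁻¹ • a ∈ s := by
  rw [Finset.mem_map]
  constructor
  · rintro ⟨b, hb, rfl⟩
    show γ⁻¹ • γ • b ∈ s
    rwa [inv_smul_smul]
  · intro h
    exact ⟨γ⁻¹ • a, h, smul_inv_smul γ a⟩

theorem lev_smul {G : Type} [Group G] [MulAction G A] {γ : G} {w : A → ℝ} {s : Finset A}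
    (h : Lev (fun a => w (γ⁻¹ • a)) s) :
    Lev w (s.map (MulAction.toPerm γ⁻¹).toEmbedding) := by
  obtain ⟨h1, h2⟩ := h
  refine ⟨h1.map, fun a ha => ?_⟩
  rw [mem_map_perm, inv_inv] at ha
  obtain ⟨h3, h4⟩ := h2 _ ha
  have e : ∀ b : A, γ⁻¹ • γ • b = b := fun b => inv_smul_smul γ b
  have h3' : 0 < w (γ⁻¹ • γ • a) := h3
  rw [e] at h3'
  refine ⟨h3', fun b hb => ?_⟩
  rw [mem_map_perm, inv_inv] at hb
  have h5 : w (γ⁻¹ • γ • b) < w (γ⁻¹ • γ • a) := h4 _ hb
  rwa [e, e] at h5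

end

end Pool.Agent.D0H26.SS
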