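import Pool.Agent.D0H26.SS.Rays
import Pool.Agent.D0H26.SS.Lev
import Pool.Agent.R772.TT7

/-!
# Contractible complexes with small stabilizers (helper26)
-/

set_option autoImplicit false

open Set Filter Topology

namespace Pool.Agent.D0H26.SS

open Pool.Agent.W689.Ch Pool.Agent.TH845.Mk Pool.Agent.Y150.Ch
open Pool.Agent.W689.Mk (lin hol_add hol_sub hol_inv_apply hol_apply_inv lin_inv_apply lin_mul
  lin_smul lin_neg hol_cont)
open Pool.Agent.R772.TT (tr exists_dual)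
open Pool.Agent.TH289.N (cl cl_apply)
open Pool.Agent.D0H13.CA (Rl Contr tower_rl nset_full exists_map actF)

section
variable {X Γ E : Type} [TopologicalSpace X] [T2Space X] [Group Γ] [MulAction Γ X]
  [NormedAddCommGroup E] [NormedSpace ℝ E] [FiniteDimensional ℝ E]
  {dev : X → E} {hol : Γ →* (E ≃ᵃ[ℝ] E)}

/-- sets of fields for the simplices of a contractible complex -/
theorem complex_full (D : AffMfd X Γ E dev hol)
    (hno : ¬ ∃ Z : X → E, Continuous Z ∧ (∀ (γ : Γ) x, Z (γ • x) = lin hol γ (Z x)) ∧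
      ∀ x, Z x ≠ 0) {A : Type} [MulAction Γ A] {𝒦 : Set (Finset A)}
    (hd : ∀ s ∈ 𝒦, ∀ t ⊆ s, t.Nonempty → t ∈ 𝒦)
    {f : X → A → ℝ} (hf1 : Continuous f) (hf2 : ∀ x, f x ∈ Rl 𝒦)
    (hf3 : ∀ (γ : Γ) x, f (γ • x) = fun a => f x (γ⁻¹ • a))
    {Q : Finset A → Set (X → E)} (hne : ∀ s ∈ 𝒦, s.Nonempty → (Q s).Nonempty)
    (hc : ∀ s, ∀ Z ∈ Q s, Continuous Z)
    (hinv : ∀ (γ : Γ), ∀ s ∈ 𝒦, s.Nonempty → ∀ Z ∈ Q s,
      tr hol γ Z ∈ Q (s.map (MulAction.toPerm γ⁻¹).toEmbedding)) :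
    ∃ x, ∃ C : Set (Finset A), C ⊆ {s | s ∈ 𝒦 ∧ s.Nonempty} ∧ C.Finite ∧ IsChain (· ≤ ·) C ∧
      (0 : E) ∈ convexHull ℝ {u | ∃ s ∈ C, ∃ Z ∈ Q s, u = Z x} := by
  have hmem : ∀ x s, Lev (f x) s → s ∈ 𝒦 ∧ s.Nonempty := by
    intro x s hs
    obtain ⟨t, ht, _, _, h⟩ := lev_sub (hf2 x)
    exact ⟨hd t ht s (h s hs) hs.1, hs.1⟩
  obtain ⟨x, h0⟩ := nset_full D hno (Φ := fun x => {Z | ∃ s, Lev (f x) s ∧ Z ∈ Q s}) (by
      intro x
      obtain ⟨s, hs⟩ := lev_exists (hf2 x)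
      obtain ⟨h1, h2⟩ := hmem x s hs
      obtain ⟨Z, hZ⟩ := hne s h1 h2
      exact ⟨Z, s, hs, hZ⟩) (by
      rintro x Z ⟨s, _, hZ⟩
      exact hc s Z hZ) (by
      rintro γ x Z ⟨s, hs, hZ⟩
      obtain ⟨h1, h2⟩ := hmem _ s hs
      refine ⟨_, ?_, hinv γ s h1 h2 Z hZ⟩
      rw [hf3] at hs
      exact lev_smul hs) (by
      rintro x Z ⟨s, hs, hZ⟩
      have h1 : Tendsto f (𝓝 x) (𝓝[Rl 𝒦] (f x)) :=
        tendsto_nhdsWithin_iff.2 ⟨hf1.continuousAt, Eventually.of_forall fun y => hf2 y⟩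
      filter_upwards [h1.eventually (lev_open (hf2 x) hs)] with y hy
      exact ⟨s, hy, hZ⟩)
  refine ⟨x, {s | Lev (f x) s}, fun s hs => hmem x s hs, lev_fin (hf2 x), ?_, ?_⟩
  · intro s hs s' hs' _
    exact lev_chain hs hs'
  · refine convexHull_mono ?_ h0
    rintro u ⟨Z, ⟨s, hs, hZ⟩, rfl⟩
    exact ⟨s, hs, Z, hZ, rfl⟩

/-- the equivariant map to a contractible complex -/
theorem exists_map_rl (D : AffMfd X Γ E dev hol)
    (hfree : ∀ (γ : Γ) (x : X), γ • x = x → γ = 1) {A : Type} [MulAction Γ A]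
    {𝒦 : Set (Finset A)}
    (hi : ∀ (γ : Γ), ∀ s ∈ 𝒦, s.map (MulAction.toPerm γ).toEmbedding ∈ 𝒦) (hC : Contr (Rl 𝒦)) :
    ∃ f : X → A → ℝ, Continuous f ∧ (∀ x, f x ∈ Rl 𝒦) ∧
      ∀ (γ : Γ) x, f (γ • x) = fun a => f x (γ⁻¹ • a) := by
  let _ := actF Γ A
  obtain ⟨f, n, hf1, hf2, hf3⟩ := exists_map D hfree (tower_rl hi hC)
  exact ⟨f, hf1, hf2, hf3⟩

/-- equivariant cones for the simplices of a complex -/
theorem cones_complex {M : Type} [AddCommGroup M] [Module ℝ M] [FiniteDimensional ℝ M]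
    (ρ : Γ → M →ₗ[ℝ] M) (ρ1 : ∀ m, ρ 1 m = m) (ρmul : ∀ γ δ m, ρ (γ * δ) m = ρ γ (ρ δ m))
    {A : Type} [MulAction Γ A] {𝒦 : Set (Finset A)}
    (hi : ∀ (γ : Γ), ∀ s ∈ 𝒦, s.map (MulAction.toPerm γ).toEmbedding ∈ 𝒦)
    (r : A → M) (hr : ∀ (γ : Γ) a, ∃ c : ℝ, 0 < c ∧ ρ γ (r a) = c • r (γ • a))
    (P : Finset A → Submodule ℝ M)
    (hP : ∀ s ∈ 𝒦, s.Nonempty → (¬ ∃ f : M →ₗ[ℝ] ℝ, ∀ a ∈ s, 0 < f (r a)) →
      s.card ≤ Module.finrank ℝ (P s) ∧ ∀ γ : Γ, s.map (MulAction.toPerm γ).toEmbedding = s →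
        ∃ c : ℝ, 0 < c ∧ ∀ m ∈ P s, ρ γ m = c • m) :
    ∃ V : Finset A → Set M, (∀ s ∈ 𝒦, s.Nonempty → (V s).Nonempty) ∧
      (∀ (γ : Γ), ∀ s ∈ 𝒦, s.Nonempty → ∀ m ∈ V s,
        ρ γ m ∈ V (s.map (MulAction.toPerm γ).toEmbedding)) ∧
      ∀ C : Set (Finset A), C ⊆ {s | s ∈ 𝒦 ∧ s.Nonempty} → C.Finite → IsChain (· ≤ ·) C →
        ∃ f : M →ₗ[ℝ] ℝ, ∀ s ∈ C, ∀ m ∈ V s, 0 < f m := by
  classical
  let _ := actS Γ A
  let Good : Finset A → Prop := fun s => ∃ f : M →ₗ[ℝ] ℝ, ∀ a ∈ s, 0 < f (r a)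
  have hgood : ∀ (γ : Γ) s, Good s → Good (s.map (MulAction.toPerm γ).toEmbedding) := by
    rintro γ s ⟨f, hf⟩
    refine ⟨f ∘ₗ ρ γ⁻¹, fun a ha => ?_⟩
    rw [mem_map_perm] at ha
    obtain ⟨c, hc, h⟩ := hr γ⁻¹ a
    show 0 < f (ρ γ⁻¹ (r a))
    rw [h, map_smul, smul_eq_mul]
    exact mul_pos hc (hf _ ha)
  have hback : ∀ (γ : Γ) (s : Finset A), (s.map (MulAction.toPerm γ).toEmbedding).map
      (MulAction.toPerm γ⁻¹).toEmbedding = s := by
    intro γ s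
    ext a
    rw [mem_map_perm, mem_map_perm, inv_inv, inv_smul_smul]
  have hgood' : ∀ (γ : Γ) s, Good (s.map (MulAction.toPerm γ).toEmbedding) → Good s := by
    intro γ s h
    have h1 := hgood γ⁻¹ _ h
    rwa [hback] at h1
  have hsubgood : ∀ s t : Finset A, s ⊆ t → Good t → Good s := by
    rintro s t hst ⟨f, hf⟩
    exact ⟨f, fun a ha => hf a (hst ha)⟩
  obtain ⟨u, h1, h2⟩ := exists_rays (G := Γ) (B := Finset A) ρ ρ1 ρmul
    (𝒦 := {s | s ∈ 𝒦 ∧ s.Nonempty ∧ ¬ Good s})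
    (fun γ s hs => ⟨hi γ s hs.1, hs.2.1.map, fun h => hs.2.2 (hgood' γ s h)⟩)
    (fun γ s s' h => (Finset.mapEmbedding (MulAction.toPerm γ).toEmbedding).strictMono h)
    Finset.card (fun s s' h => Finset.card_lt_card h)
    (fun γ s => Finset.card_map _)
    (fun s => (s.powerset.finite_toSet).subset fun t ht =>
      Finset.mem_coe.2 (Finset.mem_powerset.2 (le_of_lt ht)))
    P (fun s hs => (hP s hs.1 hs.2.1 hs.2.2).1) (fun s hs γ h => (hP s hs.1 hs.2.1 hs.2.2).2 γ h)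
    (𝒢 := {s | Good s}) (fun γ s hs => hgood γ s hs)
    (fun s => Submodule.span ℝ (r '' s))
    (by
      intro s _
      have h3 : Module.finrank ℝ (Submodule.span ℝ (r '' (s : Set A))) ≤
          (s.image r).card := by
        have := finrank_span_finset_le_card (R := ℝ) (s.image r)
        rwa [Finset.coe_image] at this
      exact h3.trans Finset.card_image_le)
    (by
      intro γ s _ m hm
      have h3 : Submodule.span ℝ (r '' (s : Set A)) ≤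
          (Submodule.span ℝ (r '' ((s.map (MulAction.toPerm γ).toEmbedding : Finset A) : Set A))).comap
            (ρ γ) := by
        rw [Submodule.span_le]
        rintro _ ⟨a, ha, rfl⟩
        obtain ⟨c, _, h⟩ := hr γ a
        show ρ γ (r a) ∈ Submodule.span ℝ
          (r '' ((s.map (MulAction.toPerm γ).toEmbedding : Finset A) : Set A))
        rw [h]
        refine Submodule.smul_mem _ _ (Submodule.subset_span ⟨_, ?_, rfl⟩)
        rw [Finset.mem_coe, mem_map_perm, inv_smul_smul]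
        exact ha
      exact h3 hm)
  refine ⟨fun s => {m | (Good s ∧ ∃ a ∈ s, ∃ c : ℝ, 0 < c ∧ m = c • r a) ∨
    (¬ Good s ∧ ∃ c : ℝ, 0 < c ∧ m = c • u s)}, ?_, ?_, ?_⟩
  · intro s hs hs'
    by_cases h : Good s
    · obtain ⟨a, ha⟩ := hs'
      exact ⟨_, Or.inl ⟨h, a, ha, 1, one_pos, rfl⟩⟩
    · exact ⟨_, Or.inr ⟨h, 1, one_pos, rfl⟩⟩
  · rintro γ s hs hs' m (⟨h, a, ha, c, hc, rfl⟩ | ⟨h, c, hc, rfl⟩)
    · obtain ⟨c', hc', h3⟩ := hr γ a
      refine Or.inl ⟨hgood γ s h, γ • a, ?_, c * c', mul_pos hc hc', ?_⟩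
      · rw [mem_map_perm, inv_smul_smul]
        exact ha
      · rw [map_smul, h3, smul_smul]
    · obtain ⟨c', hc', h3⟩ := h1 γ s ⟨hs, hs', h⟩
      refine Or.inr ⟨fun h4 => h (hgood' γ s h4), c * c', mul_pos hc hc', ?_⟩
      rw [map_smul, h3, smul_smul]
      rfl
  · intro C hC hCf hCc
    have hex : ∃ e : Finset A, Good e ∧ (∀ s ∈ C, Good s → s ⊆ e) ∧
        ∀ s ∈ C, ¬ Good s → e < s := by
      by_cases hne : ({s | s ∈ C ∧ Good s}).Nonempty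
      · obtain ⟨e, ⟨he, he'⟩, hmax⟩ := Set.Finite.exists_maximalFor Finset.card _
          (hCf.subset fun s hs => hs.1) hne
        refine ⟨e, he', fun s hs hs' => ?_, fun s hs hs' => ?_⟩
        · by_cases h : s = e
          · rw [h]
          rcases hCc hs he h with h3 | h3
          · exact h3
          · have h4 := Finset.card_lt_card (lt_of_le_of_ne h3 (Ne.symm h))
            exact absurd (hmax (j := s) ⟨hs, hs'⟩ h4.le) (not_le.2 h4)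
        · have h : s ≠ e := fun h => hs' (by rw [h]; exact he')
          rcases hCc hs he h with h3 | h3
          · exact absurd (hsubgood s e h3 he') hs'
          · exact lt_of_le_of_ne h3 (Ne.symm h)
      · refine ⟨∅, ⟨0, fun a ha => absurd ha (Finset.notMem_empty a)⟩, fun s hs hs' =>
          absurd ⟨s, hs, hs'⟩ hne, fun s hs _ => ?_⟩
        exact Finset.ssubset_iff_subset_ne.2 ⟨Finset.empty_subset s, (hC hs).2.ne_empty.symm⟩
    obtain ⟨e, he, h3, h4⟩ := hex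
    obtain ⟨f₀, hf₀⟩ := he
    obtain ⟨f, hf, hf'⟩ := h2 e {s | s ∈ C ∧ ¬ Good s} ⟨f₀, hf₀⟩
      (fun s hs => ⟨(hC hs.1).1, (hC hs.1).2, hs.2⟩) (hCf.subset fun s hs => hs.1)
      (hCc.mono fun s hs => hs.1) (fun s hs => h4 s hs.1 hs.2) f₀
    refine ⟨f, ?_⟩
    rintro s hs m (⟨h, a, ha, c, hc, rfl⟩ | ⟨h, c, hc, rfl⟩)
    · rw [map_smul, hf _ (Submodule.subset_span ⟨a, h3 s hs h ha, rfl⟩), smul_eq_mul]
      exact mul_pos hc (hf₀ a (h3 s hs h ha))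
    · rw [map_smul, hf' s ⟨hs, h⟩, smul_eq_mul, mul_one]
      exact hc

/-- **Stabilizers which act by positive scalars on subspaces.** -/
theorem sub_full (D : AffMfd X Γ E dev hol)
    (hno : ¬ ∃ Z : X → E, Continuous Z ∧ (∀ (γ : Γ) x, Z (γ • x) = lin hol γ (Z x)) ∧
      ∀ x, Z x ≠ 0) {A : Type} [MulAction Γ A] {𝒦 : Set (Finset A)}
    (hi : ∀ (γ : Γ), ∀ s ∈ 𝒦, s.map (MulAction.toPerm γ).toEmbedding ∈ 𝒦)
    (hd : ∀ s ∈ 𝒦, ∀ t ⊆ s, t.Nonempty → t ∈ 𝒦)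
    {f : X → A → ℝ} (hf1 : Continuous f) (hf2 : ∀ x, f x ∈ Rl 𝒦)
    (hf3 : ∀ (γ : Γ) x, f (γ • x) = fun a => f x (γ⁻¹ • a))
    (N : Submodule ℝ E) (hN : ∀ (γ : Γ), ∀ v ∈ N, lin hol γ v ∈ N)
    (r : A → E) (hr : ∀ (γ : Γ) a, ∃ c : ℝ, 0 < c ∧ lin hol γ (r a) - c • r (γ • a) ∈ N)
    (hS : ∀ s ∈ 𝒦, s.Nonempty →
      (¬ ∃ g : E →ₗ[ℝ] ℝ, (∀ v ∈ N, g v = 0) ∧ ∀ a ∈ s, 0 < g (r a)) →
      ∃ W : Submodule ℝ E, Module.finrank ℝ N + s.card ≤ Module.finrank ℝ W ∧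
        ∀ γ : Γ, s.map (MulAction.toPerm γ).toEmbedding = s →
          ∃ c : ℝ, 0 < c ∧ ∀ v ∈ W, lin hol γ v - c • v ∈ N) : False := by
  classical
  have hNc : ∀ γ : Γ, N ≤ N.comap ((hol γ).linear : E →ₗ[ℝ] E) := fun γ v hv => hN γ v hv
  let W : Finset A → Submodule ℝ E := fun s =>
    if h : ∃ W : Submodule ℝ E, Module.finrank ℝ N + s.card ≤ Module.finrank ℝ W ∧
        ∀ γ : Γ, s.map (MulAction.toPerm γ).toEmbedding = s →
          ∃ c : ℝ, 0 < c ∧ ∀ v ∈ W, lin hol γ v - c • v ∈ N then h.choose else ⊥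
  have hW : ∀ s ∈ 𝒦, s.Nonempty →
      (¬ ∃ g : E →ₗ[ℝ] ℝ, (∀ v ∈ N, g v = 0) ∧ ∀ a ∈ s, 0 < g (r a)) →
      Module.finrank ℝ N + s.card ≤ Module.finrank ℝ (W s) ∧
        ∀ γ : Γ, s.map (MulAction.toPerm γ).toEmbedding = s →
          ∃ c : ℝ, 0 < c ∧ ∀ v ∈ W s, lin hol γ v - c • v ∈ N := by
    intro s hs hs' hb
    have h := hS s hs hs' hb
    have e : W s = h.choose := dif_pos h
    rw [e]
    exact h.choose_spec
  obtain ⟨V, hV1, hV2, hV3⟩ := cones_complex (M := E ⧸ N)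
    (fun γ : Γ => N.mapQ N ((hol γ).linear : E →ₗ[ℝ] E) (hNc γ))
    (by
      intro m
      obtain ⟨v, rfl⟩ := N.mkQ_surjective m
      show N.mkQ (lin hol 1 v) = N.mkQ v
      rw [show lin hol 1 v = v by
        show (hol 1).linear v = v
        rw [map_one]; rfl])
    (by
      intro γ δ m
      obtain ⟨v, rfl⟩ := N.mkQ_surjective m
      show N.mkQ (lin hol (γ * δ) v) = N.mkQ (lin hol γ (lin hol δ v))
      rw [lin_mul])
    hi (fun a => N.mkQ (r a))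
    (by
      intro γ a
      obtain ⟨c, hc, h⟩ := hr γ a
      refine ⟨c, hc, ?_⟩
      show N.mkQ (lin hol γ (r a)) = c • N.mkQ (r (γ • a))
      rw [← map_smul, ← sub_eq_zero, ← map_sub, Submodule.mkQ_apply,
        Submodule.Quotient.mk_eq_zero]
      exact h)
    (fun s => (W s).map N.mkQ)
    (by
      intro s hs hs' hb
      obtain ⟨h5, h6⟩ := hW s hs hs' (fun ⟨g, hg1, hg2⟩ =>
        hb ⟨N.liftQ g (fun v hv => hg1 v hv), fun a ha => hg2 a ha⟩)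
      constructor
      · have h1 := (N.mkQ.domRestrict (W s)).finrank_range_add_finrank_ker
        have h2 : LinearMap.range (N.mkQ.domRestrict (W s)) = (W s).map N.mkQ :=
          LinearMap.range_domRestrict _ _
        have h3 : Module.finrank ℝ (LinearMap.ker (N.mkQ.domRestrict (W s))) ≤
            Module.finrank ℝ N := by
          rw [← Submodule.finrank_map_subtype_eq]
          refine Submodule.finrank_mono ?_
          rintro _ ⟨v, hv, rfl⟩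
          have h4 : N.mkQ v.1 = 0 := hv
          rwa [Submodule.mkQ_apply, Submodule.Quotient.mk_eq_zero] at h4
        rw [h2] at h1
        omega
      · intro γ hγ
        obtain ⟨c, hc, h⟩ := h6 γ hγ
        refine ⟨c, hc, ?_⟩
        rintro _ ⟨v, hv, rfl⟩
        show N.mkQ (lin hol γ v) = c • N.mkQ v
        rw [← map_smul, ← sub_eq_zero, ← map_sub, Submodule.mkQ_apply,
          Submodule.Quotient.mk_eq_zero]
        exact h v hv)
  obtain ⟨x, C, hC1, hC2, hC3, h0⟩ := complex_full D hno hd hf1 hf2 hf3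
    (Q := fun s => {Z | ∃ v : E, N.mkQ v ∈ V s ∧ Z = fun _ => v})
    (by
      intro s hs hs'
      obtain ⟨m, hm⟩ := hV1 s hs hs'
      obtain ⟨v, rfl⟩ := N.mkQ_surjective m
      exact ⟨fun _ => v, v, hm, rfl⟩)
    (by
      rintro s Z ⟨v, _, rfl⟩
      exact continuous_const)
    (by
      rintro γ s hs hs' Z ⟨v, hv, rfl⟩
      exact ⟨lin hol γ⁻¹ v, hV2 γ⁻¹ s hs hs' _ hv, rfl⟩)
  obtain ⟨g, hg⟩ := hV3 C hC1 hC2 hC3
  have h1 : convexHull ℝ {w : E | ∃ s ∈ C, ∃ Z ∈ {Z : X → E | ∃ v : E,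
      N.mkQ v ∈ V s ∧ Z = fun _ => v}, w = Z x} ⊆ {w : E | 0 < g (N.mkQ w)} := by
    refine convexHull_min ?_ ?_
    · rintro w ⟨s, hs, Z, ⟨v, hv, hZ⟩, hw⟩
      have hwv : w = v := by rw [hw, hZ]
      rw [hwv]
      exact hg s hs _ hv
    · exact convex_halfSpace_gt (f := fun w => g (N.mkQ w)) ((g ∘ₗ N.mkQ).isLinear) 0
  have h2 : (0 : ℝ) < g (N.mkQ 0) := h1 h0
  rw [map_zero, map_zero] at h2
  exact lt_irrefl _ h2

/-- **Stabilizers which act by positive scalars on quotients.** -/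
theorem quot_full (D : AffMfd X Γ E dev hol)
    (hno : ¬ ∃ Z : X → E, Continuous Z ∧ (∀ (γ : Γ) x, Z (γ • x) = lin hol γ (Z x)) ∧
      ∀ x, Z x ≠ 0) {A : Type} [MulAction Γ A] {𝒦 : Set (Finset A)}
    (hi : ∀ (γ : Γ), ∀ s ∈ 𝒦, s.map (MulAction.toPerm γ).toEmbedding ∈ 𝒦)
    (hd : ∀ s ∈ 𝒦, ∀ t ⊆ s, t.Nonempty → t ∈ 𝒦)
    {f : X → A → ℝ} (hf1 : Continuous f) (hf2 : ∀ x, f x ∈ Rl 𝒦)
    (hf3 : ∀ (γ : Γ) x, f (γ • x) = fun a => f x (γ⁻¹ • a))
    (N : Submodule ℝ E) (hN : ∀ (γ : Γ), ∀ v ∈ N, lin hol γ v ∈ N)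
    (l : A → E →ₗ[ℝ] ℝ)
    (hl : ∀ (γ : Γ) a, ∃ c : ℝ, 0 < c ∧ ∀ v ∈ N, l a v = c * l (γ • a) (lin hol γ v))
    (hS : ∀ s ∈ 𝒦, s.Nonempty → (¬ ∃ v ∈ N, ∀ a ∈ s, 0 < l a v) →
      ∃ W : Submodule ℝ E, Module.finrank ℝ W + s.card ≤ Module.finrank ℝ N ∧
        ∀ γ : Γ, s.map (MulAction.toPerm γ).toEmbedding = s →
          ∃ c : ℝ, 0 < c ∧ ∀ v ∈ N, lin hol γ v - c • v ∈ W) : False := by
  classical
  let r : Γ → N →ₗ[ℝ] N := fun γ => ((hol γ).linear : E →ₗ[ℝ] E).restrict (hN γ)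
  have hr : ∀ γ (v : N), ((r γ v : N) : E) = lin hol γ v.1 := fun γ v => rfl
  have hrr : ∀ γ (v : N), r γ (r γ⁻¹ v) = v := by
    intro γ v
    apply Subtype.ext
    rw [hr, hr]
    have h2 := lin_inv_apply (hol := hol) γ⁻¹ v.1
    rwa [inv_inv] at h2
  let W : Finset A → Submodule ℝ E := fun s =>
    if h : ∃ W : Submodule ℝ E, Module.finrank ℝ W + s.card ≤ Module.finrank ℝ N ∧
        ∀ γ : Γ, s.map (MulAction.toPerm γ).toEmbedding = s →
          ∃ c : ℝ, 0 < c ∧ ∀ v ∈ N, lin hol γ v - c • v ∈ W then h.choose else ⊥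
  have hW : ∀ s ∈ 𝒦, s.Nonempty → (¬ ∃ v ∈ N, ∀ a ∈ s, 0 < l a v) →
      Module.finrank ℝ (W s) + s.card ≤ Module.finrank ℝ N ∧
        ∀ γ : Γ, s.map (MulAction.toPerm γ).toEmbedding = s →
          ∃ c : ℝ, 0 < c ∧ ∀ v ∈ N, lin hol γ v - c • v ∈ W s := by
    intro s hs hs' hb
    have h := hS s hs hs' hb
    have e : W s = h.choose := dif_pos h
    rw [e]
    exact h.choose_spec
  obtain ⟨V, hV1, hV2, hV3⟩ := cones_complex (Γ := Γ) (M := Module.Dual ℝ N)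
    (fun γ : Γ => (r γ⁻¹).dualMap)
    (by
      intro m
      ext v
      show m (r 1⁻¹ v) = m v
      congr 1
      apply Subtype.ext
      rw [hr, inv_one]
      show (hol 1).linear v.1 = v.1
      rw [map_one]; rfl)
    (by
      intro γ δ m
      ext v
      show m (r (γ * δ)⁻¹ v) = m (r δ⁻¹ (r γ⁻¹ v))
      congr 1
      apply Subtype.ext
      rw [hr, hr, hr, mul_inv_rev, lin_mul])
    hi (fun a => (l a) ∘ₗ N.subtype)
    (by
      intro γ a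
      obtain ⟨c, hc, h⟩ := hl γ a
      refine ⟨c, hc, ?_⟩
      ext v
      show l a (r γ⁻¹ v).1 = c * l (γ • a) v.1
      rw [h _ (r γ⁻¹ v).2]
      have h1 : lin hol γ (r γ⁻¹ v : N).1 = v.1 := by
        rw [← hr, hrr]
      rw [h1])
    (fun s => ((W s).comap N.subtype).dualAnnihilator)
    (by
      intro s hs hs' hb
      obtain ⟨h5, h6⟩ := hW s hs hs' (by
        rintro ⟨v, hv, h⟩
        exact hb ⟨Module.Dual.eval ℝ N ⟨v, hv⟩, fun a ha => h a ha⟩)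
      constructor
      · have h1 := Subspace.finrank_add_finrank_dualAnnihilator_eq ((W s).comap N.subtype)
        have h3 : Module.finrank ℝ ((W s).comap N.subtype) ≤ Module.finrank ℝ (W s) := by
          rw [← Submodule.finrank_map_subtype_eq]
          refine Submodule.finrank_mono ?_
          rintro _ ⟨v, hv, rfl⟩
          exact hv
        omega
      · intro γ hγ
        obtain ⟨c, hc, h⟩ := h6 γ hγ
        refine ⟨c⁻¹, inv_pos.2 hc, ?_⟩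
        intro m hm
        ext v
        show m (r γ⁻¹ v) = c⁻¹ * m v
        have h2 := h (r γ⁻¹ v).1 (r γ⁻¹ v).2
        rw [← hr, hrr] at h2
        have h3 : v - c • r γ⁻¹ v ∈ (W s).comap N.subtype := h2
        have h4 : m (v - c • r γ⁻¹ v) = 0 := (Submodule.mem_dualAnnihilator m).1 hm _ h3
        rw [map_sub, map_smul, sub_eq_zero, smul_eq_mul] at h4
        rw [h4, inv_mul_cancel_left₀ hc.ne'])
  obtain ⟨B, hB1, hB2, hB3⟩ := exists_dual D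
  obtain ⟨x, C, hC1, hC2, hC3, h0⟩ := complex_full D hno hd hf1 hf2 hf3
    (Q := fun s => {Z | ∃ m : E →L[ℝ] ℝ, (m : E →ₗ[ℝ] ℝ) ∘ₗ N.subtype ∈ V s ∧
      Z = fun x => B x m})
    (by
      intro s hs hs'
      obtain ⟨m₀, hm₀⟩ := hV1 s hs hs'
      obtain ⟨m, hm⟩ := LinearMap.exists_extend m₀
      refine ⟨_, LinearMap.toContinuousLinearMap m, ?_, rfl⟩
      have h : ((LinearMap.toContinuousLinearMap m : E →L[ℝ] ℝ) : E →ₗ[ℝ] ℝ) ∘ₗ N.subtype = m₀ := by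
        rw [← hm]
        rfl
      rw [h]
      exact hm₀)
    (by
      rintro s Z ⟨m, _, rfl⟩
      exact hB1 m)
    (by
      rintro γ s hs hs' Z ⟨m, hm, rfl⟩
      refine ⟨m.comp (cl hol γ), ?_, ?_⟩
      · have h1 := hV2 γ⁻¹ s hs hs' _ hm
        have h2 : (r γ⁻¹⁻¹).dualMap ((m : E →ₗ[ℝ] ℝ) ∘ₗ N.subtype) =
            ((m.comp (cl hol γ) : E →L[ℝ] ℝ) : E →ₗ[ℝ] ℝ) ∘ₗ N.subtype := by
          rw [inv_inv]
          rfl
        rwa [h2] at h1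
      · funext y
        show lin hol γ⁻¹ (B (γ • y) m) = B y (m.comp (cl hol γ))
        rw [hB3, lin_inv_apply])
  obtain ⟨g, hg⟩ := hV3 C hC1 hC2 hC3
  obtain ⟨v, hv⟩ := (Module.evalEquiv ℝ N).surjective g
  have hgv : ∀ m : Module.Dual ℝ N, g m = m v := by
    intro m
    rw [← hv]
    rfl
  have h1 : convexHull ℝ {w : E | ∃ s ∈ C, ∃ Z ∈ {Z : X → E | ∃ m : E →L[ℝ] ℝ,
      (m : E →ₗ[ℝ] ℝ) ∘ₗ N.subtype ∈ V s ∧ Z = fun x => B x m}, w = Z x} ⊆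
      {w : E | ∃ m : E →L[ℝ] ℝ, 0 < m v.1 ∧ w = B x m} := by
    refine convexHull_min ?_ ?_
    · rintro w ⟨s, hs, Z, ⟨m, hm, hZ⟩, hw⟩
      refine ⟨m, ?_, by rw [hw, hZ]⟩
      have h2 := hg s hs _ hm
      rw [hgv] at h2
      exact h2
    · rintro _ ⟨m, hm, rfl⟩ _ ⟨m', hm', rfl⟩ a b ha hb hab
      refine ⟨a • m + b • m', ?_, ?_⟩
      · show 0 < a * m v.1 + b * m' v.1
        rcases ha.eq_or_lt with h | h
        · rw [← h] at hab ⊢
          rw [zero_add] at hab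
          rw [hab]
          linarith
        · have := mul_pos h hm
          have := mul_nonneg hb hm'.le
          linarith
      · rw [map_add, map_smul, map_smul]
  obtain ⟨m, hm, h2⟩ := h1 h0
  by_cases hm0 : m = 0
  · rw [hm0] at hm
    exact lt_irrefl _ hm
  · have h3 := hB2 x m hm0
    rw [← h2, map_zero] at h3
    exact lt_irrefl _ h3

end

end Pool.Agent.D0H26.SS
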