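import Mathlib

/-!
# Equivariant rays in general position (helper26)

A group acts on a partially ordered set with a height function and linearly on a vector space.
If the stabilizer of every element `b` acts by positive scalars on a subspace of dimension at
least the height of `b`, there are rays, one for each element, which are permuted by the group and
such that the rays of every finite chain lie in an open half-space.
-/

set_option autoImplicit false

open Set

namespace Pool.Agent.D0H26.SS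

section
variable {G B M : Type} [Group G] [MulAction G B] [AddCommGroup M]
  [Module ℝ M]

/-- a finite union of subspaces of smaller dimension -/
theorem exists_avoid [FiniteDimensional ℝ M] {ι : Type} (s : Set ι) (hs : s.Finite)
    (S : ι → Submodule ℝ M)
    (P : Submodule ℝ M) (h : ∀ i ∈ s, Module.finrank ℝ (S i) < Module.finrank ℝ P) :
    ∃ v ∈ P, ∀ i ∈ s, v ∉ S i := by
  classical
  by_contra hcon
  push Not at hcon
  have : Finite s := hs.to_subtype
  obtain ⟨i, hi⟩ := Subspace.exists_eq_top_of_iUnion_eq_univ (k := ℝ) (E := P)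
    (p := fun i : s => (S i.1).comap P.subtype) (by
      rw [Set.eq_univ_iff_forall]
      intro v
      obtain ⟨i, hi, hv⟩ := hcon v.1 v.2
      exact Set.mem_iUnion.2 ⟨⟨i, hi⟩, hv⟩)
  have h1 : P ≤ S i.1 := by
    intro v hv
    have h2 : (⟨v, hv⟩ : P) ∈ (S i.1).comap P.subtype := by
      rw [hi]
      trivial
    exact h2
  exact absurd (Submodule.finrank_mono h1) (not_le.2 (h i.1 i.2))

/-- a functional which is one on independent vectors -/
theorem step_fun {ι : Type} {C : Set ι} (R : Submodule ℝ M) (u : ι → M) (f : M →ₗ[ℝ] ℝ)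
    (hf : ∀ b ∈ C, f (u b) = 1) {x : M} (hx : x ∉ R ⊔ Submodule.span ℝ (u '' C)) :
    ∃ g : M →ₗ[ℝ] ℝ, (∀ m ∈ R, g m = f m) ∧ (∀ b ∈ C, g (u b) = 1) ∧ g x = 1 := by
  obtain ⟨q, hq1, hq2⟩ := Submodule.exists_dual_map_eq_bot_of_notMem hx inferInstance
  have hq4 : ∀ m ∈ R ⊔ Submodule.span ℝ (u '' C), q m = 0 := by
    intro m hm
    have h1 : q m ∈ (R ⊔ Submodule.span ℝ (u '' C)).map q := Submodule.mem_map_of_mem hm
    rw [hq2] at h1
    exact h1
  have hq3 : ∀ b ∈ C, q (u b) = 0 := fun b hb =>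
    hq4 _ (Submodule.mem_sup_right (Submodule.subset_span ⟨b, hb, rfl⟩))
  refine ⟨f + ((1 - f x) / q x) • q, fun m hm => ?_, fun b hb => ?_, ?_⟩
  · simp [hq4 m (Submodule.mem_sup_left hm)]
  · simp [hf b hb, hq3 b hb]
  · have : q x ≠ 0 := hq1
    simp
    field_simp
    ring

/-- chains below an element are short -/
theorem chain_card [PartialOrder B] {h : B → ℕ} (hlt : ∀ b b', b < b' → h b < h b') {C : Set B}
    (hC : IsChain (· ≤ ·) C) {r g : B} (hr : ∀ b ∈ C, b < r)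
    (hpos : ∀ b ∈ C, g < b) (hr1 : g < r) : h g + C.ncard < h r := by
  classical
  have hinj : Set.InjOn h C := by
    intro b hb b' hb' hbb
    by_contra hne
    rcases hC hb hb' hne with h1 | h1
    · exact absurd hbb (hlt _ _ (lt_of_le_of_ne h1 hne)).ne
    · exact absurd hbb (hlt _ _ (lt_of_le_of_ne h1 (Ne.symm hne))).ne'
  have h1 : h '' C ⊆ (Finset.Ico (h g + 1) (h r) : Finset ℕ) := by
    rintro _ ⟨b, hb, rfl⟩
    rw [Finset.coe_Ico]
    exact ⟨hlt _ _ (hpos b hb), hlt _ _ (hr b hb)⟩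
  have h2 : (h '' C).ncard ≤ (Finset.Ico (h g + 1) (h r)).card := by
    rw [← Set.ncard_coe_finset]
    exact Set.ncard_le_ncard h1 (Finset.finite_toSet _)
  rw [hinj.ncard_image, Nat.card_Ico] at h2
  have h3 := hlt _ _ hr1
  omega

/-- **Equivariant rays in general position.** -/
theorem exists_rays [PartialOrder B] [FiniteDimensional ℝ M]
    (ρ : G → M →ₗ[ℝ] M) (ρ1 : ∀ m, ρ 1 m = m) (ρmul : ∀ γ δ m, ρ (γ * δ) m = ρ γ (ρ δ m))
    {𝒦 : Set B} (hK : ∀ (γ : G), ∀ b ∈ 𝒦, γ • b ∈ 𝒦)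
    (hmono : ∀ (γ : G) (b b' : B), b < b' → γ • b < γ • b')
    (h : B → ℕ) (hlt : ∀ b b', b < b' → h b < h b') (hinv : ∀ (γ : G) b, h (γ • b) = h b)
    (hfin : ∀ b : B, {b' | b' < b}.Finite) (P : B → Submodule ℝ M)
    (hP : ∀ b ∈ 𝒦, h b ≤ Module.finrank ℝ (P b))
    (hS : ∀ b ∈ 𝒦, ∀ γ : G, γ • b = b → ∃ c : ℝ, 0 < c ∧ ∀ m ∈ P b, ρ γ m = c • m)
    {𝒢 : Set B} (h𝒢 : ∀ (γ : G), ∀ b ∈ 𝒢, γ • b ∈ 𝒢) (R : B → Submodule ℝ M)
    (hR : ∀ b ∈ 𝒢, Module.finrank ℝ (R b) ≤ h b)
    (hRi : ∀ (γ : G), ∀ b ∈ 𝒢, ∀ m ∈ R b, ρ γ m ∈ R (γ • b)) :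
    ∃ u : B → M, (∀ (γ : G), ∀ b ∈ 𝒦, ∃ c : ℝ, 0 < c ∧ ρ γ (u b) = c • u (γ • b)) ∧
      ∀ (e : B) (C : Set B), e ∈ 𝒢 → C ⊆ 𝒦 → C.Finite → IsChain (· ≤ ·) C → (∀ b ∈ C, e < b) →
        ∀ f : M →ₗ[ℝ] ℝ, ∃ f' : M →ₗ[ℝ] ℝ, (∀ m ∈ R e, f' m = f m) ∧
          ∀ b ∈ C, f' (u b) = 1 := by
  classical
  let rep : B → B := fun b => (Quotient.mk (MulAction.orbitRel G B) b).out
  have hrep : ∀ b, ∃ g : G, g • rep b = b := by
    intro b
    have h1 : (MulAction.orbitRel G B) (rep b) b :=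
      Quotient.exact (Quotient.out_eq (Quotient.mk (MulAction.orbitRel G B) b))
    rw [MulAction.orbitRel_apply] at h1
    obtain ⟨g, hg⟩ := h1
    refine ⟨g⁻¹, ?_⟩
    rw [← hg]
    exact inv_smul_smul g b
  choose g hg using hrep
  have hrep2 : ∀ (γ : G) b, rep (γ • b) = rep b := by
    intro γ b
    have h1 : (Quotient.mk (MulAction.orbitRel G B) (γ • b)) =
        Quotient.mk (MulAction.orbitRel G B) b :=
      Quotient.sound (MulAction.orbitRel_apply.2 ⟨γ, rfl⟩)
    show (Quotient.mk (MulAction.orbitRel G B) (γ • b)).out = _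
    rw [h1]
  have hreph : ∀ b, h (rep b) = h b := by
    intro b
    conv_rhs => rw [← hg b]
    rw [hinv]
  have hrepr : ∀ b, rep (rep b) = rep b := by
    intro b
    conv_rhs => rw [← hg b]
    rw [hrep2]
  have hrepK : ∀ b ∈ 𝒦, rep b ∈ 𝒦 := by
    intro b hb
    have h1 := hK (g b)⁻¹ b hb
    have h2 : (g b)⁻¹ • b = rep b := inv_smul_eq_iff.2 (hg b).symm
    rwa [h2] at h1
  let Good : B → (B → M) → M → Prop := fun r w v => v ∈ P r ∧
    ∀ (e : B) (C : Set B), e ∈ 𝒢 → e < r → C ⊆ 𝒦 → (∀ b ∈ C, b < r) → (∀ b ∈ C, e < b) →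
      IsChain (· ≤ ·) C → v ∉ R e ⊔ Submodule.span ℝ (w '' C)
  have hex : ∀ r ∈ 𝒦, ∀ w, ∃ v, Good r w v := by
    intro r hr w
    obtain ⟨v, hv, hv2⟩ := exists_avoid {q : B × Set B | q.1 ∈ 𝒢 ∧ q.1 < r ∧ q.2 ⊆ 𝒦 ∧
      (∀ b ∈ q.2, b < r) ∧ (∀ b ∈ q.2, q.1 < b) ∧ IsChain (· ≤ ·) q.2}
      (((hfin r).prod (hfin r).finite_subsets).subset fun q hq => ⟨hq.2.1, hq.2.2.2.1⟩)
      (fun q => R q.1 ⊔ Submodule.span ℝ (w '' q.2)) (P r) (by
        rintro ⟨e, C⟩ ⟨h0, h1', h1, h2, h2', h3⟩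
        have hCf : C.Finite := (hfin r).subset h2
        have h4 : Module.finrank ℝ (Submodule.span ℝ (w '' C)) ≤ (w '' C).ncard := by
          have : Fintype (w '' C) := (hCf.image w).fintype
          rw [Set.ncard_eq_toFinset_card']
          exact finrank_span_le_card _
        have h5 := Set.ncard_image_le (f := w) hCf
        have h6 : h e + C.ncard < h r := chain_card hlt h3 h2 h2' h1'
        have h7 := Submodule.finrank_add_le_finrank_add_finrank (R e)
          (Submodule.span ℝ (w '' C))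
        have h8 := hR e h0
        have h9 := hP r hr
        show Module.finrank ℝ ((R e ⊔ Submodule.span ℝ (w '' C) : Submodule ℝ M)) < _
        omega)
    exact ⟨v, hv, fun e C g1 g2 h1 h2 h2' h3 => hv2 (e, C) ⟨g1, g2, h1, h2, h2', h3⟩⟩
  let pick : B → (B → M) → M := fun r w => if hx : ∃ v, Good r w v then hx.choose else 0
  have hpick : ∀ r ∈ 𝒦, ∀ w, Good r w (pick r w) := by
    intro r hr w
    have h1 := hex r hr w
    show Good r w (if hx : ∃ v, Good r w v then hx.choose else 0)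
    rw [dif_pos h1]
    exact h1.choose_spec
  let F : (b : B) → ((b' : B) → (measure h).rel b' b → M) → M := fun b rec =>
    ρ (g b) (pick (rep b) (fun b' => if hb : (measure h).rel b' b then rec b' hb else 0))
  let u : B → M := (measure h).wf.fix F
  let V : B → M := fun r => pick r (fun b' => if h b' < h r then u b' else 0)
  have hu : ∀ b, u b = ρ (g b) (V (rep b)) := by
    intro b
    have h1 : u b = F b (fun b' _ => u b') := (measure h).wf.fix_eq F b
    rw [h1]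
    show ρ (g b) (pick (rep b) (fun b' => if hb : (measure h).rel b' b then u b' else 0)) =
      ρ (g b) (pick (rep b) (fun b' => if h b' < h (rep b) then u b' else 0))
    have h2 : (fun b' => if hb : (measure h).rel b' b then u b' else 0) =
        (fun b' => if h b' < h (rep b) then u b' else 0) := by
      funext b'
      rw [hreph]
      by_cases hh : h b' < h b
      · rw [if_pos hh]
        exact dif_pos (show (measure h).rel b' b from hh)
      · rw [if_neg hh]
        exact dif_neg hh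
    rw [h2]
  have hV : ∀ r ∈ 𝒦, V r ∈ P r ∧ ∀ (e : B) (C : Set B), e ∈ 𝒢 → e < r → C ⊆ 𝒦 →
      (∀ b ∈ C, b < r) → (∀ b ∈ C, e < b) → IsChain (· ≤ ·) C →
      V r ∉ R e ⊔ Submodule.span ℝ (u '' C) := by
    intro r hr
    obtain ⟨h1, h2⟩ := hpick r hr (fun b' => if h b' < h r then u b' else 0)
    refine ⟨h1, fun e C g1 g2 h3 h4 h4' h5 h6 => h2 e C g1 g2 h3 h4 h4' h5 ?_⟩
    have h7 : (fun b' => if h b' < h r then u b' else 0) '' C = u '' C := by
      refine Set.image_congr fun b hb => ?_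
      exact if_pos (hlt _ _ (h4 b hb))
    rw [h7]
    exact h6
  have hi : ∀ (γ : G), ∀ b ∈ 𝒦, ∃ c : ℝ, 0 < c ∧ ρ γ (u b) = c • u (γ • b) := by
    intro γ b hb
    have hr := hrepK b hb
    obtain ⟨c, hc, h1⟩ := hS (rep b) hr ((g (γ • b))⁻¹ * (γ * g b)) (by
      rw [mul_smul, mul_smul, hg b, inv_smul_eq_iff]
      conv_lhs => rw [← hg (γ • b)]
      rw [hrep2])
    refine ⟨c, hc, ?_⟩
    have h2 := h1 (V (rep b)) (hV _ hr).1
    rw [hu b, hu (γ • b), hrep2, ← ρmul, ← map_smul, ← h2, ← ρmul, mul_inv_cancel_left]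
  refine ⟨u, hi, ?_⟩
  intro e C₀ he h01 h02 h03 h04 f₀
  have key : ∀ n : ℕ, ∀ C : Set B, C.ncard = n → C ⊆ 𝒦 → C.Finite → IsChain (· ≤ ·) C →
      (∀ b ∈ C, e < b) →
      ∃ f : M →ₗ[ℝ] ℝ, (∀ m ∈ R e, f m = f₀ m) ∧ ∀ b ∈ C, f (u b) = 1 := by
    intro n
    induction n with
    | zero =>
      intro C hn _ hCf _ _
      rw [Set.ncard_eq_zero hCf] at hn
      exact ⟨f₀, fun _ _ => rfl, fun b hb => by rw [hn] at hb; exact hb.elim⟩
    | succ n ih =>
      intro C hn hCK hCf hCc hCe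
      have hne : C.Nonempty := by
        rw [← Set.ncard_pos hCf]
        omega
      obtain ⟨b, hb, hmax⟩ := Set.Finite.exists_maximalFor h C hCf hne
      have hbelow : ∀ b' ∈ C \ {b}, b' < b := by
        rintro b' ⟨hb', hne'⟩
        rcases hCc hb' hb hne' with h1 | h1
        · exact lt_of_le_of_ne h1 hne'
        · have h2 := hlt _ _ (lt_of_le_of_ne h1 (Ne.symm hne'))
          exact absurd (hmax hb' h2.le) (not_le.2 h2)
      have hsub : C \ {b} ⊆ C := Set.sdiff_subset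
      obtain ⟨f, hf0, hf⟩ := ih (C \ {b}) (by
        rw [Set.ncard_sdiff_singleton_of_mem hb, hn]; rfl)
        (hsub.trans hCK) (hCf.subset hsub) (hCc.mono hsub) (fun b' hb' => hCe b' (hsub hb'))
      have hnot : u b ∉ R e ⊔ Submodule.span ℝ (u '' (C \ {b})) := by
        intro hmem
        have hbK := hCK hb
        have hinvb : (g b)⁻¹ • b = rep b := inv_smul_eq_iff.2 (hg b).symm
        have h1 : ρ (g b)⁻¹ (u b) = V (rep b) := by
          rw [hu b, ← ρmul, inv_mul_cancel, ρ1]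
        have h2 : ρ (g b)⁻¹ (u b) ∈ R ((g b)⁻¹ • e) ⊔
            Submodule.span ℝ (u '' ((fun b' => (g b)⁻¹ • b') '' (C \ {b}))) := by
          have h3 : R e ⊔ Submodule.span ℝ (u '' (C \ {b})) ≤
              (R ((g b)⁻¹ • e) ⊔
                Submodule.span ℝ (u '' ((fun b' => (g b)⁻¹ • b') '' (C \ {b})))).comap
                (ρ (g b)⁻¹) := by
            refine sup_le (fun m hm => Submodule.mem_sup_left (hRi _ e he m hm)) ?_
            rw [Submodule.span_le]
            rintro _ ⟨b', hb', rfl⟩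
            obtain ⟨c, _, h4⟩ := hi (g b)⁻¹ b' (hCK (hsub hb'))
            show ρ (g b)⁻¹ (u b') ∈ R ((g b)⁻¹ • e) ⊔
              Submodule.span ℝ (u '' ((fun b' => (g b)⁻¹ • b') '' (C \ {b})))
            rw [h4]
            exact Submodule.mem_sup_right
              (Submodule.smul_mem _ _ (Submodule.subset_span ⟨_, ⟨b', hb', rfl⟩, rfl⟩))
          exact h3 hmem
        rw [h1] at h2
        have heb := hmono (g b)⁻¹ _ _ (hCe b hb)
        rw [hinvb] at heb
        refine (hV (rep b) (hrepK b hbK)).2 _ _ (h𝒢 _ _ he) heb ?_ ?_ ?_ ?_ h2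
        · rintro _ ⟨b', hb', rfl⟩
          exact hK _ _ (hCK (hsub hb'))
        · rintro _ ⟨b', hb', rfl⟩
          have h3 := hmono (g b)⁻¹ _ _ (hbelow b' hb')
          rwa [hinvb] at h3
        · rintro _ ⟨b', hb', rfl⟩
          exact hmono _ _ _ (hCe b' (hsub hb'))
        · rintro _ ⟨b₁, hb₁, rfl⟩ _ ⟨b₂, hb₂, rfl⟩ hne'
          have hne2 : b₁ ≠ b₂ := fun h3 => hne' (by rw [h3])
          rcases hCc (hsub hb₁) (hsub hb₂) hne2 with h3 | h3
          · exact Or.inl (hmono _ _ _ (lt_of_le_of_ne h3 hne2)).le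
          · exact Or.inr (hmono _ _ _ (lt_of_le_of_ne h3 (Ne.symm hne2))).le
      obtain ⟨q, hq0, hq1, hq2⟩ := step_fun (R e) u f hf hnot
      refine ⟨q, fun m hm => (hq0 m hm).trans (hf0 m hm), fun b' hb' => ?_⟩
      by_cases h1 : b' = b
      · rw [h1, hq2]
      · exact hq1 b' ⟨hb', h1⟩
  exact key _ C₀ rfl h01 h02 h03 h04

end

end Pool.Agent.D0H26.SS
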